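import Pool.Agent.V1148.Homog

set_option autoImplicit false
set_option linter.unusedVariables false

/-! # Hilbert functions and regular elements -/

namespace Pool.Agent.V1148.ST

open MvPolynomial

variable {K : Type*} [Field K] {n : ℕ}

theorem hom_eq_restrict (m e : ℕ) :
    homogeneousSubmodule (Fin (m + 1)) K e =
      restrictSupport K {α : Fin (m + 1) →₀ ℕ | ∑ i, α i = e} := by
  ext f
  rw [mem_homogeneousSubmodule, mem_restrictSupport_iff]
  constructor
  · intro h α hα
    have h1 := h.degree_eq_sum_deg_support hα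
    rw [Set.mem_ofPred_eq, h1]
    exact (Finset.sum_subset (Finset.subset_univ _) (fun i _ hi => by simpa using hi)).symm
  · intro h α hα
    have h1 : α ∈ f.support := by rwa [mem_support_iff]
    have h2 : ∑ i, α i = e := h h1
    rw [← h2, ← Finsupp.degree_eq_sum, Finsupp.degree_eq_weight_one]
    rfl

theorem finrank_hom (m e : ℕ) :
    Module.Finite K (homogeneousSubmodule (Fin (m + 1)) K e) ∧
      Module.finrank K (homogeneousSubmodule (Fin (m + 1)) K e) = (e + m).choose m := by
  rw [hom_eq_restrict]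
  set S : Set (Fin (m + 1) →₀ ℕ) := {α | ∑ i, α i = e} with hS
  let eq : S ≃ ((Finset.univ : Finset (Fin (m + 1))).finsuppAntidiag e) :=
    Equiv.subtypeEquivRight fun α => by
      rw [Finset.mem_finsuppAntidiag]
      simp only [Finset.subset_univ, and_true]
      exact Iff.rfl
  let B := (MvPolynomial.basisRestrictSupport K S).reindex eq
  refine ⟨Module.Finite.of_basis B, ?_⟩
  rw [Module.finrank_eq_card_basis B, Fintype.card_coe, Finset.card_finsuppAntidiag_nat_eq_choose,
    Finset.card_univ, Fintype.card_fin]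
  have h1 : m + 1 + e - 1 = m + e := by omega
  rw [h1, ← Nat.choose_symm_add, add_comm]

/-- The degree `d` part of the ideal `J`, as a subspace of the space of forms of degree `d`. -/
noncomputable def part (J : Ideal (MvPolynomial (Fin n) K)) (d : ℕ) :
    Submodule K (homogeneousSubmodule (Fin n) K d) :=
  (J.restrictScalars K).comap (homogeneousSubmodule (Fin n) K d).subtype

/-- The dimension of the degree `d` part of the quotient of the polynomial ring by the (homogeneous)
ideal `J`. -/
noncomputable def hilb (J : Ideal (MvPolynomial (Fin n) K)) (d : ℕ) : ℕ :=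
  Module.finrank K (homogeneousSubmodule (Fin n) K d ⧸ part J d)

theorem mem_part {J : Ideal (MvPolynomial (Fin n) K)} {d : ℕ}
    {p : homogeneousSubmodule (Fin n) K d} : p ∈ part J d ↔ (p : MvPolynomial (Fin n) K) ∈ J :=
  Iff.rfl

theorem hilb_bot (m d : ℕ) : hilb (⊥ : Ideal (MvPolynomial (Fin (m + 1)) K)) d =
    (d + m).choose m := by
  have h1 : part (⊥ : Ideal (MvPolynomial (Fin (m + 1)) K)) d = ⊥ := by
    rw [eq_bot_iff]
    intro p hp
    rw [mem_part, Ideal.mem_bot] at hp
    rw [Submodule.mem_bot]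
    exact Subtype.ext hp
  unfold hilb
  rw [h1, ← (finrank_hom (K := K) m d).2]
  exact (Submodule.quotEquivOfEqBot _ rfl).finrank_eq

/-- graded ideals -/
def Graded (J : Ideal (MvPolynomial (Fin n) K)) : Prop :=
  ∀ p ∈ J, ∀ d, homogeneousComponent d p ∈ J

theorem graded_bot : Graded (⊥ : Ideal (MvPolynomial (Fin n) K)) := by
  intro p hp d
  rw [Ideal.mem_bot] at hp
  rw [hp, map_zero]; exact Ideal.zero_mem _

theorem mem_adj {J : Ideal (MvPolynomial (Fin n) K)} {f p : MvPolynomial (Fin n) K} :
    p ∈ J ⊔ Ideal.span {f} ↔ ∃ j ∈ J, ∃ s, p = j + s * f := by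
  rw [Submodule.mem_sup]
  constructor
  · rintro ⟨j, hj, q, hq, rfl⟩
    obtain ⟨s, rfl⟩ := Ideal.mem_span_singleton'.1 hq
    exact ⟨j, hj, s, rfl⟩
  · rintro ⟨j, hj, s, rfl⟩
    exact ⟨j, hj, s * f, Ideal.mem_span_singleton'.2 ⟨s, rfl⟩, rfl⟩

theorem graded_adj {J : Ideal (MvPolynomial (Fin n) K)} (hJ : Graded J)
    {f : MvPolynomial (Fin n) K} {e : ℕ} (hf : f.IsHomogeneous e) :
    Graded (J ⊔ Ideal.span {f}) := by
  intro p hp d
  obtain ⟨j, hj, s, rfl⟩ := mem_adj.1 hp
  rw [map_add, homogeneousComponent_mul_right hf]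
  split_ifs
  · exact mem_adj.2 ⟨_, hJ j hj d, _, rfl⟩
  · rw [add_zero]; exact Submodule.mem_sup_left (hJ j hj d)

theorem hstep' {J : Ideal (MvPolynomial (Fin n) K)} (hJ : Graded J)
    {f : MvPolynomial (Fin n) K} {e : ℕ} (hf : f.IsHomogeneous e) {d : ℕ} (hd : d < e) :
    hilb (J ⊔ Ideal.span {f}) d = hilb J d := by
  have h1 : part (J ⊔ Ideal.span {f}) d = part J d := by
    ext p
    rw [mem_part, mem_part]
    constructor
    · intro h
      obtain ⟨j, hj, s, hp⟩ := mem_adj.1 h
      have h2 := homogeneousComponent_eq_self ((mem_homogeneousSubmodule _ _).1 p.2)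
      rw [hp, map_add, homogeneousComponent_mul_right hf, if_neg (by omega), add_zero] at h2
      rw [hp, ← h2]; exact hJ j hj d
    · intro h; exact Submodule.mem_sup_left h
  unfold hilb
  rw [h1]

theorem hstep [hfin : ∀ d, Module.Finite K (homogeneousSubmodule (Fin n) K d)]
    {J : Ideal (MvPolynomial (Fin n) K)} (hJ : Graded J)
    {f : MvPolynomial (Fin n) K} {e : ℕ} (hf : f.IsHomogeneous e) (hn : ∀ u, u * f ∈ J → u ∈ J)
    {d : ℕ} (hd : e ≤ d) : hilb (J ⊔ Ideal.span {f}) d + hilb J (d - e) = hilb J d := by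
  let mul : homogeneousSubmodule (Fin n) K (d - e) →ₗ[K] homogeneousSubmodule (Fin n) K d :=
    { toFun := fun p => ⟨p.1 * f, by
        have := ((mem_homogeneousSubmodule _ _).1 p.2).mul hf
        rw [Nat.sub_add_cancel hd] at this
        exact this⟩
      map_add' := fun p q => Subtype.ext (add_mul _ _ _)
      map_smul' := fun c p => Subtype.ext (smul_mul_assoc _ _ _) }
  have hle : part J d ≤ part (J ⊔ Ideal.span {f}) d := fun p hp => Submodule.mem_sup_left hp
  let m : homogeneousSubmodule (Fin n) K (d - e) →ₗ[K]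
      (homogeneousSubmodule (Fin n) K d ⧸ part J d) := (part J d).mkQ.comp mul
  let φ : (homogeneousSubmodule (Fin n) K d ⧸ part J d) →ₗ[K]
      (homogeneousSubmodule (Fin n) K d ⧸ part (J ⊔ Ideal.span {f}) d) :=
    (part J d).mapQ _ LinearMap.id hle
  have hker : LinearMap.ker m = part J (d - e) := by
    ext p
    rw [LinearMap.mem_ker, LinearMap.comp_apply, Submodule.mkQ_apply,
      Submodule.Quotient.mk_eq_zero, mem_part, mem_part]
    exact ⟨fun h => hn _ h, fun h => Ideal.mul_mem_right _ _ h⟩
  have hφs : Function.Surjective φ := by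
    intro q
    obtain ⟨p, rfl⟩ := Submodule.Quotient.mk_surjective _ q
    exact ⟨Submodule.Quotient.mk p, rfl⟩
  have hφk : LinearMap.ker φ = LinearMap.range m := by
    ext q
    obtain ⟨p, rfl⟩ := Submodule.Quotient.mk_surjective _ q
    rw [LinearMap.mem_ker, LinearMap.mem_range]
    have h1 : φ (Submodule.Quotient.mk p) = Submodule.Quotient.mk p := rfl
    rw [h1, Submodule.Quotient.mk_eq_zero, mem_part]
    constructor
    · intro h
      obtain ⟨j, hj, s, hp⟩ := mem_adj.1 h
      refine ⟨⟨homogeneousComponent (d - e) s, homogeneousComponent_mem _ _⟩, ?_⟩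
      rw [LinearMap.comp_apply, Submodule.mkQ_apply, Submodule.Quotient.eq, mem_part]
      have h2 := homogeneousComponent_eq_self ((mem_homogeneousSubmodule _ _).1 p.2)
      have h3 : homogeneousComponent d (p : MvPolynomial (Fin n) K) =
          homogeneousComponent d j + homogeneousComponent (d - e) s * f := by
        rw [hp, map_add, homogeneousComponent_mul_right hf, if_pos hd]
      rw [h2] at h3
      show homogeneousComponent (d - e) s * f - (p : MvPolynomial (Fin n) K) ∈ J
      rw [h3]
      have h4 : homogeneousComponent (d - e) s * f -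
          (homogeneousComponent d j + homogeneousComponent (d - e) s * f) =
          - homogeneousComponent d j := by ring
      rw [h4]
      exact J.neg_mem (hJ j hj d)
    · rintro ⟨u, hu⟩
      rw [LinearMap.comp_apply, Submodule.mkQ_apply, Submodule.Quotient.eq, mem_part] at hu
      have h5 : (u : MvPolynomial (Fin n) K) * f - (p : MvPolynomial (Fin n) K) ∈ J := hu
      refine mem_adj.2 ⟨-(u * f - p), J.neg_mem h5, u, ?_⟩
      ring
  have h6 := LinearMap.finrank_range_add_finrank_ker φ
  rw [hφk, LinearMap.range_eq_top.2 hφs, finrank_top] at h6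
  have h7 := m.quotKerEquivRange.finrank_eq
  rw [hker] at h7
  unfold hilb
  rw [h7]
  exact h6

end Pool.Agent.V1148.ST
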