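import Pool.Agent.V1148.ST.Defs

set_option autoImplicit false

/-! # Poincare polynomials from closure operators -/

namespace Pool.Agent.V1148.ST

open MvPolynomial

variable {K : Type*} [Field K] {n l : ℕ}

theorem poincare_of (A : Fin n → Fin l → K) (cl : Finset (Fin n) → Finset (Fin n))
    (hcl : ∀ (s : Finset (Fin n)) i, ⨅ j ∈ s, hyper (A j) ≤ hyper (A i) ↔ i ∈ cl s)
    (f : Finset (Fin n) → ℤ) (r : Finset (Fin n) → ℕ) (h1 : f (cl ∅) = 1)
    (hf : ∀ C, cl C = C → C ≠ cl ∅ →
      ∑ C' ∈ Finset.univ.filter (fun C' => cl C' = C' ∧ C' ⊆ C), f C' = 0)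
    (hr : ∀ C : Finset (Fin n), cl C = C →
      l - Module.finrank K (⨅ j ∈ C, hyper (A j) : Submodule K (Fin l → K)) = r C) :
    IsPoincare A (∑ C ∈ Finset.univ.filter (fun C => cl C = C),
      Polynomial.C (f C : ℚ) * (-Polynomial.X) ^ r C) := by
  classical
  set inter : Finset (Fin n) → Submodule K (Fin l → K) := fun s => ⨅ j ∈ s, hyper (A j) with hinter
  have hle : ∀ s t, inter s ≤ inter t ↔ t ⊆ cl s := by
    intro s t
    simp only [hinter, le_iInf_iff]
    constructor
    · intro h i hi
      exact (hcl s i).1 (h i hi)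
    · intro h i hi
      exact (hcl s i).2 (h hi)
  have hsub : ∀ s, s ⊆ cl s := fun s => (hle s s).1 le_rfl
  have hic : ∀ s, inter (cl s) = inter s := by
    intro s
    apply le_antisymm
    · exact (hle _ _).2 ((hsub s).trans (hsub _))
    · exact (hle _ _).2 (Finset.Subset.refl _)
  have hcc : ∀ s, cl (cl s) = cl s := by
    intro s
    apply Finset.Subset.antisymm
    · rw [← hle, hic, hic]
    · exact hsub _
  have hinj : ∀ C C', cl C = C → cl C' = C' → inter C = inter C' → C = C' := by
    intro C C' h h' he
    apply Finset.Subset.antisymm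
    · rw [← h', ← hle, he]
    · rw [← h, ← hle, he]
  have hflats : flats A = (Finset.univ.filter (fun C => cl C = C)).image inter := by
    ext X
    simp only [flats, Finset.mem_image, Finset.mem_univ, true_and, Finset.mem_filter]
    constructor
    · rintro ⟨s, rfl⟩
      exact ⟨cl s, hcc s, hic s⟩
    · rintro ⟨C, _, rfl⟩
      exact ⟨C, rfl⟩
  have hinjOn : Set.InjOn inter ((Finset.univ.filter (fun C => cl C = C) :
      Finset (Finset (Fin n))) : Set (Finset (Fin n))) := by
    intro C hC C' hC' he
    simp only [Finset.coe_filter, Finset.mem_univ, true_and, Set.mem_ofPred_eq] at hC hC'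
    exact hinj C C' hC hC' he
  set clX : Submodule K (Fin l → K) → Finset (Fin n) := fun X =>
    Finset.univ.filter (fun i => X ≤ hyper (A i)) with hclX
  have hclX' : ∀ C, cl C = C → clX (inter C) = C := by
    intro C hC
    ext i
    simp only [hclX, Finset.mem_filter, Finset.mem_univ, true_and, hinter]
    rw [hcl, hC]
  have htop : inter (cl ∅) = ⊤ := by
    rw [hic]; simp [hinter]
  refine ⟨fun X => f (clX X), ?_, ?_, ?_⟩
  · rw [← htop]
    show f (clX (inter (cl ∅))) = 1
    rw [hclX' _ (hcc _), h1]
  · intro X hX hXt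
    rw [hflats] at hX ⊢
    obtain ⟨C, hC, rfl⟩ := Finset.mem_image.1 hX
    rw [Finset.mem_filter] at hC
    have hC := hC.2
    have hne : C ≠ cl ∅ := by
      rintro rfl
      exact hXt htop
    rw [← hf C hC hne, Finset.filter_image, Finset.sum_image]
    · rw [Finset.filter_filter]
      refine Finset.sum_congr ?_ ?_
      · ext C'
        simp only [Finset.mem_filter, Finset.mem_univ, true_and]
        rw [hle, hC]
      · intro C' hC'
        simp only [Finset.mem_filter, Finset.mem_univ, true_and] at hC'
        rw [hclX' _ hC'.1]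
    · intro C1 h1 C2 h2 he
      simp only [Finset.coe_filter, Finset.mem_filter, Finset.mem_univ, true_and,
        Set.mem_ofPred_eq] at h1 h2
      exact hinj C1 C2 h1.1 h2.1 he
  · rw [hflats, Finset.sum_image hinjOn]
    refine Finset.sum_congr rfl fun C hC => ?_
    rw [Finset.mem_filter] at hC
    show _ = Polynomial.C ((f (clX (inter C)) : ℤ) : ℚ) * _
    rw [hclX' C hC.2, hr C hC.2]

end Pool.Agent.V1148.ST
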