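import Pool.Agent.V1148.ST.C
import Pool.Agent.V1148.Arr3

set_option autoImplicit false

/-! # The two Poincare polynomials -/

namespace Pool.Agent.V1148.ST

open MvPolynomial

variable {K : Type*} [Field K]

/-- coefficients: the lines `x, x - z, x + z, y, y - z, z` -/
def Z6 : Fin 6 → Fin 3 → ℤ := ![![1, 0, 0], ![1, 0, -1], ![1, 0, 1], ![0, 1, 0], ![0, 1, -1],
  ![0, 0, 1]]

def A6 : Fin 6 → Fin 3 → K := fun i j => (Z6 i j : K)

theorem det_A6 (i j k : Fin 6) : det3 (A6 i : Fin 3 → K) (A6 j) (A6 k) =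
    ((det3 (Z6 i) (Z6 j) (Z6 k) : ℤ) : K) := by
  simp only [det3, A6]; push_cast; ring

theorem cross_Z6 : ∀ i j, i ≠ j → cross3 (Z6 i) (Z6 j) ≠ 0 := by decide +kernel

theorem cross_A6 [CharZero K] (i j : Fin 6) (hij : i ≠ j) :
    cross3 (A6 i : Fin 3 → K) (A6 j) ≠ 0 := by
  have h1 : cross3 (A6 i : Fin 3 → K) (A6 j) = fun k => ((cross3 (Z6 i) (Z6 j) k : ℤ) : K) := by
    funext k
    fin_cases k <;> simp [cross3, A6]
  intro h
  apply cross_Z6 i j hij
  funext k
  rw [h1] at h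
  have := congrFun h k
  simpa using this

theorem A6_ne [CharZero K] (i : Fin 6) : (A6 i : Fin 3 → K) ≠ 0 := by
  have h : ∃ j, i ≠ j := by
    by_cases hi : i = 0
    · exact ⟨1, by rw [hi]; decide⟩
    · exact ⟨0, hi⟩
  obtain ⟨j, hj⟩ := h
  exact ne_zero_of_cross (cross_A6 i j hj)

theorem A6_arr [CharZero K] : IsArrangement (A6 : Fin 6 → Fin 3 → K) :=
  isArrangement_of_cross A6_ne cross_A6

/-- the closure operator -/
def cl6 (s : Finset (Fin 6)) : Finset (Fin 6) :=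
  Finset.univ.filter fun i => i ∈ s ∨
    (∃ j ∈ s, ∃ k ∈ s, j ≠ k ∧ det3 (Z6 j) (Z6 k) (Z6 i) = 0) ∨
      ∃ j ∈ s, ∃ k ∈ s, ∃ m ∈ s, det3 (Z6 j) (Z6 k) (Z6 m) ≠ 0

theorem cl6_spec [CharZero K] (s : Finset (Fin 6)) (i : Fin 6) :
    ⨅ j ∈ s, hyper (A6 j : Fin 3 → K) ≤ hyper (A6 i) ↔ i ∈ cl6 s := by
  have h := iInf_le_hyper_iff (A := (A6 : Fin 6 → Fin 3 → K)) A6_ne cross_A6
    (s : Set (Fin 6)) i
  simp only [Finset.mem_coe, det_A6] at h
  rw [h, cl6, Finset.mem_filter]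
  simp only [Finset.mem_univ, true_and, Int.cast_eq_zero, ne_eq]

/-- Moebius values and codimensions -/
def mu6 (s : Finset (Fin 6)) : ℤ :=
  if s.card = 0 then 1 else if s.card = 1 then -1 else if s.card = 6 then -6 else s.card - 1

def rk6 (s : Finset (Fin 6)) : ℕ :=
  if s.card = 0 then 0 else if s.card = 1 then 1 else if s.card = 6 then 3 else 2

theorem finrank_hyper {l : ℕ} {a : Fin l → K} (ha : a ≠ 0) :
    Module.finrank K (hyper a) + 1 = l := by
  let φ : Module.Dual K (Fin l → K) := ∑ j, a j • LinearMap.proj j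
  have h1 : hyper a = LinearMap.ker φ := by
    ext x
    rw [mem_hyper, LinearMap.mem_ker]
    simp [φ]
  have h2 : φ ≠ 0 := by
    intro h
    apply ha
    funext j
    have := congrArg (fun ψ : Module.Dual K (Fin l → K) => ψ (Pi.single j 1)) h
    simpa [φ, Pi.single_apply] using this
  rw [h1, Module.Dual.finrank_ker_add_one_of_ne_zero h2, Module.finrank_fin_fun]

theorem finrank_two {a b : Fin 3 → K} (h : cross3 a b ≠ 0) :
    Module.finrank K (hyper a ⊓ hyper b : Submodule K (Fin 3 → K)) = 1 := by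
  have ha : a ≠ 0 := ne_zero_of_cross h
  have hb : b ≠ 0 := by
    rintro rfl
    apply h
    funext k
    fin_cases k <;> simp [cross3]
  have h1 := finrank_hyper ha
  have h2 := finrank_hyper hb
  have h3 := Submodule.finrank_sup_add_finrank_inf_eq (hyper a) (hyper b)
  have h4 : hyper a < hyper a ⊔ hyper b := by
    refine lt_of_le_of_ne le_sup_left ?_
    intro he
    have h5 : hyper b ≤ hyper a := by rw [he]; exact le_sup_right
    have h6 : hyper b = hyper a := Submodule.eq_of_le_of_finrank_eq h5 (by omega)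
    exact not_hyper_le h h6.ge
  have h7 := Submodule.finrank_lt_finrank_of_lt h4
  have h8 := Submodule.finrank_le (hyper a ⊔ hyper b)
  rw [Module.finrank_fin_fun] at h8
  omega

theorem rk_spec [CharZero K] (C : Finset (Fin 6)) (hC : cl6 C = C) :
    3 - Module.finrank K (⨅ j ∈ C, hyper (A6 j) : Submodule K (Fin 3 → K)) = rk6 C := by
  have dec : ∀ C : Finset (Fin 6), cl6 C = C → C = ∅ ∨ (∃ i, C = {i}) ∨
      (C = Finset.univ ∧ rk6 C = 3) ∨
      (∃ j ∈ C, ∃ k ∈ C, j ≠ k ∧ (∀ i ∈ C, det3 (Z6 j) (Z6 k) (Z6 i) = 0) ∧ rk6 C = 2) := by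
    decide +kernel
  rcases dec C hC with rfl | ⟨i, rfl⟩ | ⟨rfl, hr⟩ | ⟨j, hj, k, hk, hjk, h, hr⟩
  · have h0 : (⨅ j ∈ (∅ : Finset (Fin 6)), hyper (A6 j) : Submodule K (Fin 3 → K)) = ⊤ := by
      simp
    rw [h0, finrank_top, Module.finrank_fin_fun]; rfl
  · have := finrank_hyper (A6_ne (K := K) i)
    have h0 : (⨅ j ∈ ({i} : Finset (Fin 6)), hyper (A6 j) : Submodule K (Fin 3 → K)) =
        hyper (A6 i) := by
      simp
    have h1 : rk6 {i} = 1 := by simp [rk6]
    rw [h0, h1]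
    omega
  · rw [hr]
    have h0 : (⨅ j ∈ (Finset.univ : Finset (Fin 6)), hyper (A6 j) : Submodule K (Fin 3 → K)) =
        ⊥ := by
      rw [eq_bot_iff]
      intro x hx
      simp only [Submodule.mem_iInf] at hx
      rw [Submodule.mem_bot]
      refine eq_zero_of_det_ne (a := A6 0) (b := A6 3) (c := A6 5) ?_ (hx 0 (Finset.mem_univ _))
        (hx 3 (Finset.mem_univ _)) (hx 5 (Finset.mem_univ _))
      rw [det_A6, Int.cast_ne_zero]
      decide
    rw [h0]; simp
  · rw [hr]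
    have h0 : (⨅ j ∈ C, hyper (A6 j) : Submodule K (Fin 3 → K)) = hyper (A6 j) ⊓ hyper (A6 k) := by
      apply le_antisymm
      · exact le_inf (iInf₂_le (f := fun j (_ : j ∈ C) => hyper (A6 j : Fin 3 → K)) j hj)
          (iInf₂_le (f := fun j (_ : j ∈ C) => hyper (A6 j : Fin 3 → K)) k hk)
      · refine le_iInf₂ fun i hi x hx => ?_
        refine mem_of_det_zero (cross_A6 j k hjk) ?_ hx.1 hx.2
        rw [det_A6, h i hi]; simp
    rw [h0, finrank_two (cross_A6 j k hjk)]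

theorem mu_spec : ∀ C, cl6 C = C → C ≠ cl6 ∅ →
    ∑ C' ∈ Finset.univ.filter (fun C' => cl6 C' = C' ∧ C' ⊆ C), mu6 C' = 0 := by
  decide +kernel

theorem sum_by_rank : ∀ k ∈ Finset.range 4,
    ∑ C ∈ Finset.univ.filter (fun C => cl6 C = C ∧ rk6 C = k), mu6 C =
      (![1, -6, 11, -6] : Fin 4 → ℤ) (Fin.ofNat 4 k) := by
  decide +kernel

theorem rk_lt : ∀ C : Finset (Fin 6), rk6 C ∈ Finset.range 4 := by
  intro C
  unfold rk6
  split_ifs <;> simp

open Polynomial in
theorem poincare_A6 [CharZero K] : IsPoincare (A6 : Fin 6 → Fin 3 → K)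
    ((1 + Polynomial.X) * (1 + 2 * Polynomial.X) * (1 + 3 * Polynomial.X)) := by
  have h := poincare_of (A6 : Fin 6 → Fin 3 → K) cl6 cl6_spec mu6 rk6 (by decide) mu_spec rk_spec
  have h2 : (∑ C ∈ Finset.univ.filter (fun C => cl6 C = C),
      Polynomial.C (mu6 C : ℚ) * (-Polynomial.X) ^ rk6 C) =
      ((1 + Polynomial.X) * (1 + 2 * Polynomial.X) * (1 + 3 * Polynomial.X)) := by
    rw [← Finset.sum_fiberwise_of_maps_to (t := Finset.range 4) (g := rk6) (fun C _ => rk_lt C)]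
    have h3 : ∀ k ∈ Finset.range 4, (∑ C ∈ (Finset.univ.filter (fun C => cl6 C = C)).filter
        (fun C => rk6 C = k), Polynomial.C (mu6 C : ℚ) * (-Polynomial.X) ^ rk6 C) =
        Polynomial.C ((((![1, -6, 11, -6] : Fin 4 → ℤ) (Fin.ofNat 4 k) : ℤ)) : ℚ) *
          (-Polynomial.X) ^ k := by
      intro k hk
      rw [← sum_by_rank k hk, Finset.filter_filter, Int.cast_sum, map_sum, Finset.sum_mul]
      refine Finset.sum_congr rfl fun C hC => ?_
      rw [Finset.mem_filter] at hC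
      rw [hC.2.2]
    rw [Finset.sum_congr rfl h3]
    simp only [Finset.sum_range_succ, Finset.sum_range_zero]
    have e0 : (![1, -6, 11, -6] : Fin 4 → ℤ) (Fin.ofNat 4 0) = 1 := rfl
    have e1 : (![1, -6, 11, -6] : Fin 4 → ℤ) (Fin.ofNat 4 1) = -6 := rfl
    have e2 : (![1, -6, 11, -6] : Fin 4 → ℤ) (Fin.ofNat 4 2) = 11 := rfl
    have e3 : (![1, -6, 11, -6] : Fin 4 → ℤ) (Fin.ofNat 4 3) = -6 := rfl
    rw [e0, e1, e2, e3]
    push_cast
    simp only [map_neg, map_one, map_ofNat]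
    ring
  rw [h2] at h
  exact h

end Pool.Agent.V1148.ST
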