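import Pool.Agent.V1148.ST.A
import Pool.Agent.V1148.ArrDefs

set_option autoImplicit false

/-! # Solomon-Terao algebras: definitions -/

namespace Pool.Agent.V1148.ST

open MvPolynomial

variable {K : Type*} [Field K] {n m l : ℕ}

open Classical in
/-- `L(A)`: all intersections of subsets of the arrangement (the empty intersection is the whole
space). -/
noncomputable def flats (A : Fin n → Fin l → K) : Finset (Submodule K (Fin l → K)) :=
  Finset.univ.image fun s : Finset (Fin n) => ⨅ i ∈ s, hyper (A i)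

open Classical in
/-- `p` is the Poincare polynomial `∑ μ(X) (-t) ^ codim X` of the arrangement, where the Moebius
function `μ` is determined by `μ(V) = 1` and `∑ μ(Y) = 0`, the sum over all `Y ⊇ X` in `L(A)`, for
every `X ≠ V` in `L(A)`. -/
def IsPoincare (A : Fin n → Fin l → K) (p : Polynomial ℚ) : Prop :=
  ∃ μ : Submodule K (Fin l → K) → ℤ, μ ⊤ = 1 ∧
    (∀ X ∈ flats A, X ≠ ⊤ → ∑ Y ∈ (flats A).filter (fun Y => X ≤ Y), μ Y = 0) ∧
    p = ∑ X ∈ flats A, Polynomial.C (μ X : ℚ) * (-Polynomial.X) ^ (l - Module.finrank K X)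

/-- The form `f` is non-degenerate on the subspace `X`: the derivatives of `f|X` along the vectors
`w` of `X` have no common zero on `X` other than the origin. -/
def NonDeg (f : MvPolynomial (Fin l) K) (X : Submodule K (Fin l → K)) : Prop :=
  ∀ v ∈ X, (∀ w ∈ X, ∑ i, w i * eval v (pderiv i f) = 0) → v = 0

/-- `f ∈ U_d(A)`: a form of degree `d` that is non-degenerate on every `X ∈ L(A)`. -/
def InU (A : Fin n → Fin l → K) (d : ℕ) (f : MvPolynomial (Fin l) K) : Prop :=
  f.IsHomogeneous d ∧ ∀ X ∈ flats A, NonDeg f X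

/-- The Solomon-Terao ideal `{θ(f) | θ ∈ D(A)}`. -/
noncomputable def stIdeal (A : Fin n → Fin l → K) (f : MvPolynomial (Fin l) K) :
    Ideal (MvPolynomial (Fin l) K) where
  carrier := {g | ∃ θ ∈ logDer A, θ f = g}
  add_mem' := by
    rintro _ _ ⟨θ, hθ, rfl⟩ ⟨ψ, hψ, rfl⟩
    exact ⟨θ + ψ, add_mem hθ hψ, rfl⟩
  zero_mem' := ⟨0, zero_mem _, rfl⟩
  smul_mem' := by
    rintro c _ ⟨θ, hθ, rfl⟩
    exact ⟨c • θ, Submodule.smul_mem _ _ hθ, rfl⟩

/-- `P` is the Hilbert series of the Solomon-Terao algebra of `A` and `f` (a polynomial). -/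
def IsHilb (A : Fin n → Fin l → K) (f : MvPolynomial (Fin l) K) (P : Polynomial ℚ) : Prop :=
  ∀ d, P.coeff d = (hilb (stIdeal A f) d : ℚ)

/-- `B` is the restriction `A^H` of `A` to the hyperplane `H = hyper (A i)`, where the linear
isomorphism `φ` of `K^m` onto `H` is used to put coordinates on `H`. -/
def IsRestriction (A : Fin n → Fin l → K) (i : Fin n) {k : ℕ}
    (φ : (Fin m → K) →ₗ[K] (Fin l → K)) (B : Fin k → Fin m → K) : Prop :=
  Function.Injective φ ∧ LinearMap.range φ = hyper (A i) ∧ IsArrangement B ∧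
    (Set.range fun j => hyper (B j)) = {W | ∃ j, j ≠ i ∧ W = (hyper (A j)).comap φ}

/-- The restriction of the polynomial function `f` to the image of `φ`, in the coordinates of
`K^m`. -/
noncomputable def resPoly (f : MvPolynomial (Fin l) K) (φ : (Fin m → K) →ₗ[K] (Fin l → K)) :
    MvPolynomial (Fin m) K :=
  aeval (fun t : Fin l => lin fun k => φ (Pi.single k 1) t) f

end Pool.Agent.V1148.ST
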