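import Pool.Agent.V1148.ST.D

set_option autoImplicit false

/-! # The restriction and non-degeneracy -/

namespace Pool.Agent.V1148.ST

open MvPolynomial

variable {K : Type*} [Field K]

/-- the two lines `x`, `y` in the plane -/
def B2 : Fin 2 → Fin 2 → K := fun i => Pi.single i 1

theorem mem_B2 {i : Fin 2} {x : Fin 2 → K} : x ∈ hyper (B2 i) ↔ x i = 0 := by
  rw [mem_hyper]
  simp [B2, Pi.single_apply]

theorem B2_ne (i : Fin 2) : (B2 i : Fin 2 → K) ≠ 0 := by
  intro h
  have := congrFun h i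
  simp [B2] at this

theorem cl2_spec (s : Finset (Fin 2)) (i : Fin 2) :
    ⨅ j ∈ s, hyper (B2 j : Fin 2 → K) ≤ hyper (B2 i) ↔ i ∈ id s := by
  constructor
  · intro h
    by_contra hi
    have h1 : (Pi.single i 1 : Fin 2 → K) ∈ ⨅ j ∈ s, hyper (B2 j : Fin 2 → K) := by
      simp only [Submodule.mem_iInf]
      intro j hj
      rw [mem_B2, Pi.single_apply, if_neg]
      rintro rfl; exact hi hj
    have h2 := h h1
    rw [mem_B2] at h2
    simp at h2
  · intro hi
    exact iInf₂_le (f := fun j (_ : j ∈ s) => hyper (B2 j : Fin 2 → K)) i hi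

theorem B2_arr : IsArrangement (B2 : Fin 2 → Fin 2 → K) := by
  refine ⟨B2_ne, ?_⟩
  intro i j hij
  have h1 := (cl2_spec (K := K) {i} j).1 (by simp only [Finset.mem_singleton, iInf_iInf_eq_left]; exact hij.le)
  exact (show j = i by simpa using h1).symm

theorem rk2_spec (C : Finset (Fin 2)) (_ : id C = C) :
    2 - Module.finrank K (⨅ j ∈ C, hyper (B2 j) : Submodule K (Fin 2 → K)) = C.card := by
  have dec : ∀ C : Finset (Fin 2), C = ∅ ∨ (∃ i, C = {i}) ∨ (C = Finset.univ) := by
    decide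
  rcases dec C with rfl | ⟨i, rfl⟩ | rfl
  · have h0 : (⨅ j ∈ (∅ : Finset (Fin 2)), hyper (B2 j) : Submodule K (Fin 2 → K)) = ⊤ := by
      simp
    rw [h0, finrank_top, Module.finrank_fin_fun]; rfl
  · have := finrank_hyper (B2_ne (K := K) i)
    have h0 : (⨅ j ∈ ({i} : Finset (Fin 2)), hyper (B2 j) : Submodule K (Fin 2 → K)) =
        hyper (B2 i) := by
      simp
    rw [h0, Finset.card_singleton]
    omega
  · have h0 : (⨅ j ∈ (Finset.univ : Finset (Fin 2)), hyper (B2 j) : Submodule K (Fin 2 → K)) =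
        ⊥ := by
      rw [eq_bot_iff]
      intro x hx
      simp only [Submodule.mem_iInf] at hx
      rw [Submodule.mem_bot]
      funext i
      exact mem_B2.1 (hx i (Finset.mem_univ _))
    rw [h0]; simp

theorem poincare_B2 : IsPoincare (B2 : Fin 2 → Fin 2 → K) ((1 + Polynomial.X) ^ 2) := by
  have h := poincare_of (B2 : Fin 2 → Fin 2 → K) id cl2_spec (fun C => (-1) ^ C.card)
    (fun C => C.card) (by simp) (by decide) rk2_spec
  have h2 : (∑ C ∈ Finset.univ.filter (fun C : Finset (Fin 2) => id C = C),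
      Polynomial.C ((((-1) ^ C.card : ℤ)) : ℚ) * (-Polynomial.X) ^ C.card) =
      (1 + Polynomial.X) ^ 2 := by
    have h3 : (Finset.univ.filter (fun C : Finset (Fin 2) => id C = C)) =
        {∅, {0}, {1}, {0, 1}} := by decide
    rw [h3, Finset.sum_insert (by decide), Finset.sum_insert (by decide),
      Finset.sum_insert (by decide), Finset.sum_singleton]
    have c0 : (∅ : Finset (Fin 2)).card = 0 := rfl
    have c1 : ({0} : Finset (Fin 2)).card = 1 := rfl
    have c2 : ({1} : Finset (Fin 2)).card = 1 := rfl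
    have c3 : ({0, 1} : Finset (Fin 2)).card = 2 := rfl
    rw [c0, c1, c2, c3]
    push_cast
    simp only [map_neg, map_one, map_pow]
    ring
  rw [h2] at h
  exact h

/-- coordinates on the plane `z = 0` -/
def phi : (Fin 2 → K) →ₗ[K] (Fin 3 → K) where
  toFun u := ![u 0, u 1, 0]
  map_add' u v := by
    funext i; fin_cases i <;> simp
  map_smul' c u := by
    funext i; fin_cases i <;> simp

theorem restr [CharZero K] : IsRestriction (A6 : Fin 6 → Fin 3 → K) 5 phi
    (B2 : Fin 2 → Fin 2 → K) := by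
  refine ⟨?_, ?_, B2_arr, ?_⟩
  · intro u v h
    have h0 := congrFun h 0
    have h1 := congrFun h 1
    funext i
    fin_cases i
    · exact h0
    · exact h1
  · ext x
    rw [LinearMap.mem_range, mem_hyper]
    simp only [Fin.sum_univ_three, A6, Z6]
    constructor
    · rintro ⟨u, rfl⟩
      simp [phi]
    · intro h
      refine ⟨![x 0, x 1], ?_⟩
      funext i
      fin_cases i
      · rfl
      · rfl
      · simp at h; exact h.symm
  · have h : ∀ j : Fin 6, j ≠ 5 → (hyper (A6 j : Fin 3 → K)).comap phi =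
        hyper (B2 (if (j : ℕ) < 3 then 0 else 1)) := by
      intro j hj
      ext u
      rw [Submodule.mem_comap, mem_hyper, mem_B2]
      simp only [Fin.sum_univ_three, A6, Z6]
      fin_cases j <;> simp [phi] at hj ⊢
    ext W
    constructor
    · rintro ⟨i, rfl⟩
      fin_cases i
      · exact ⟨0, by decide, (h 0 (by decide)).symm⟩
      · exact ⟨3, by decide, (h 3 (by decide)).symm⟩
    · rintro ⟨j, hj, rfl⟩
      rw [h j hj]
      exact ⟨_, rfl⟩

/-- the quadratic form -/
noncomputable def eta : MvPolynomial (Fin 3) K := X 0 ^ 2 + X 1 ^ 2 + X 2 ^ 2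

theorem grad_eta (v w : Fin 3 → K) : ∑ i, w i * eval v (pderiv i (eta : MvPolynomial (Fin 3) K)) =
    2 * (w 0 * v 0 + w 1 * v 1 + w 2 * v 2) := by
  simp [Fin.sum_univ_three, eta, pderiv_X, Pi.single_apply]
  ring

theorem nondeg_flat [CharZero K] (X : Submodule K (Fin 3 → K))
    (hX : X ∈ flats (A6 : Fin 6 → Fin 3 → K)) : NonDeg eta X := by
  classical
  simp only [flats, Finset.mem_image, Finset.mem_univ, true_and] at hX
  obtain ⟨s, rfl⟩ := hX
  intro v hv hw
  have hv' : ∀ i ∈ cl6 s, v ∈ hyper (A6 i : Fin 3 → K) := fun i hi =>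
    (cl6_spec s i).2 hi hv
  have hin : ∀ w : Fin 3 → K, (∀ i ∈ cl6 s, w ∈ hyper (A6 i : Fin 3 → K)) →
      w 0 * v 0 + w 1 * v 1 + w 2 * v 2 = 0 := by
    intro w h
    have h1 : w ∈ ⨅ j ∈ s, hyper (A6 j : Fin 3 → K) := by
      simp only [Submodule.mem_iInf]
      intro j hj
      exact h j ((cl6_spec (K := K) s j).1
        (iInf₂_le (f := fun j (_ : j ∈ s) => hyper (A6 j : Fin 3 → K)) j hj))
    have h2 := hw w h1
    rw [grad_eta] at h2
    exact (mul_eq_zero.1 h2).resolve_left two_ne_zero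
  have dec : ∀ s : Finset (Fin 6), cl6 s = ∅ ∨ (∃ i, cl6 s = {i}) ∨
      (cl6 s = Finset.univ) ∨
      (∃ j ∈ cl6 s, ∃ k ∈ cl6 s, j ≠ k ∧ (∀ i ∈ cl6 s, det3 (Z6 j) (Z6 k) (Z6 i) = 0)) := by
    decide +kernel
  rcases dec s with h | ⟨i, h⟩ | h | ⟨j, hj, k, hk, hjk, h⟩
  · rw [h] at hin
    funext i
    fin_cases i
    · simpa using hin ![1, 0, 0] (by simp)
    · simpa using hin ![0, 1, 0] (by simp)
    · simpa using hin ![0, 0, 1] (by simp)
  · rw [h] at hin hv'
    have hvi := hv' i (Finset.mem_singleton_self i)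
    rw [mem_hyper3] at hvi
    have hn : ∀ i, Z6 i 0 * Z6 i 0 + Z6 i 1 * Z6 i 1 + Z6 i 2 * Z6 i 2 ≠ 0 := by decide +kernel
    have hn' : (A6 i 0 * A6 i 0 + A6 i 1 * A6 i 1 + A6 i 2 * A6 i 2 : K) ≠ 0 := by
      have := hn i
      simp only [A6]
      exact_mod_cast this
    set N : K := A6 i 0 * A6 i 0 + A6 i 1 * A6 i 1 + A6 i 2 * A6 i 2 with hN
    have key : ∀ u : Fin 3 → K, N * (u 0 * v 0 + u 1 * v 1 + u 2 * v 2) = 0 := by
      intro u
      have h3 := hin (fun t => N * u t - (A6 i 0 * u 0 + A6 i 1 * u 1 + A6 i 2 * u 2) * A6 i t)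
        (by
          intro i' hi'
          rw [Finset.mem_singleton] at hi'
          subst hi'
          rw [mem_hyper3, hN]
          ring)
      linear_combination h3 + (A6 i 0 * u 0 + A6 i 1 * u 1 + A6 i 2 * u 2) * hvi
    funext t
    fin_cases t
    · have := key ![1, 0, 0]
      simp at this
      exact this.resolve_left hn'
    · have := key ![0, 1, 0]
      simp at this
      exact this.resolve_left hn'
    · have := key ![0, 0, 1]
      simp at this
      exact this.resolve_left hn'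
  · rw [h] at hv'
    refine eq_zero_of_det_ne (a := A6 0) (b := A6 3) (c := A6 5) ?_ (hv' 0 (Finset.mem_univ _))
      (hv' 3 (Finset.mem_univ _)) (hv' 5 (Finset.mem_univ _))
    rw [det_A6, Int.cast_ne_zero]
    decide
  · have h4 := hin (cross3 (A6 j) (A6 k)) (by
      intro i hi
      refine cross_mem ?_
      rw [det_A6, h i hi]; simp)
    refine eq_zero_of_det_ne (a := A6 j) (b := A6 k) (c := cross3 (A6 j) (A6 k)) ?_ (hv' j hj)
      (hv' k hk) ?_
    · have hn : ∀ j k, j ≠ k → det3 (Z6 j) (Z6 k) (cross3 (Z6 j) (Z6 k)) ≠ 0 := by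
        decide +kernel
      have e : det3 (A6 j : Fin 3 → K) (A6 k) (cross3 (A6 j) (A6 k)) =
          ((det3 (Z6 j) (Z6 k) (cross3 (Z6 j) (Z6 k)) : ℤ) : K) := by
        simp only [det3, cross3, A6]
        push_cast
        simp
      rw [e, Int.cast_ne_zero]
      exact hn j k hjk
    · rw [mem_hyper3]; exact h4

theorem inU [CharZero K] : InU (A6 : Fin 6 → Fin 3 → K) 2 eta := by
  refine ⟨?_, nondeg_flat⟩
  unfold eta
  exact ((isHomogeneous_X_pow _ _).add (isHomogeneous_X_pow _ _)).add (isHomogeneous_X_pow _ _)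

end Pool.Agent.V1148.ST
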