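import Pool.Agent.V1148.ST.E

set_option autoImplicit false
set_option linter.unusedVariables false

/-! # The Solomon-Terao ideals and regular sequences -/

namespace Pool.Agent.V1148.ST

open MvPolynomial

variable {K : Type*} [Field K]

theorem not_dvd_eval {l : ℕ} {F G : MvPolynomial (Fin l) K} (a : Fin l → K) (hF : eval a F = 0)
    (hG : eval a G ≠ 0) : ¬ F ∣ G := by
  rintro ⟨H, rfl⟩
  rw [map_mul, hF, zero_mul] at hG
  exact hG rfl

theorem lin_A6 (i : Fin 6) : lin (A6 i : Fin 3 → K) =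
    ![X 0, X 0 - X 2, X 0 + X 2, X 1, X 1 - X 2, X 2] i := by
  fin_cases i <;> simp [lin, A6, Z6, Fin.sum_univ_three, sub_eq_add_neg]

theorem prime_A6 [CharZero K] (i : Fin 6) :
    Prime ((![X 0, X 0 - X 2, X 0 + X 2, X 1, X 1 - X 2, X 2] :
      Fin 6 → MvPolynomial (Fin 3) K) i) := by
  rw [← lin_A6]; exact lin_prime (A6_ne i)

theorem p0 [CharZero K] : Prime (X 0 : MvPolynomial (Fin 3) K) := prime_A6 0
theorem p1 [CharZero K] : Prime (X 0 - X 2 : MvPolynomial (Fin 3) K) := prime_A6 1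
theorem p2 [CharZero K] : Prime (X 0 + X 2 : MvPolynomial (Fin 3) K) := prime_A6 2
theorem p3 [CharZero K] : Prime (X 1 : MvPolynomial (Fin 3) K) := prime_A6 3
theorem p4 [CharZero K] : Prime (X 1 - X 2 : MvPolynomial (Fin 3) K) := prime_A6 4

/-- the quartic -/
noncomputable def f4 : MvPolynomial (Fin 3) K := X 0 * (X 0 * ((X 0 - X 2) * (X 0 + X 2)))

/-- the cubic -/
noncomputable def f3 : MvPolynomial (Fin 3) K := X 1 * (X 1 * (X 1 - X 2))

theorem stIdeal_A6 [CharZero K] : stIdeal (A6 : Fin 6 → Fin 3 → K) eta =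
    ⊥ ⊔ Ideal.span {eta} ⊔ Ideal.span {f4} ⊔ Ideal.span {f3} := by
  have h2 : (C (2⁻¹ : K) : MvPolynomial (Fin 3) K) * 2 = 1 := by
    have : (2 : MvPolynomial (Fin 3) K) = C 2 := by rw [map_ofNat]
    rw [this, ← C_mul, inv_mul_cancel₀ two_ne_zero, C_1]
  have hder : ∀ θ : Derivation K (MvPolynomial (Fin 3) K) (MvPolynomial (Fin 3) K),
      θ eta = 2 * (X 0 * θ (X 0) + X 1 * θ (X 1) + X 2 * θ (X 2)) := by
    intro θ
    simp only [eta, map_add, Derivation.leibniz_pow, smul_eq_mul, nsmul_eq_mul]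
    push_cast
    ring
  apply le_antisymm
  · rintro _ ⟨θ, hθ, rfl⟩
    have h0 := hθ 0
    have h1 := hθ 1
    have h2' := hθ 2
    have h3 := hθ 3
    have h4 := hθ 4
    have h5 := hθ 5
    simp only [lin_A6, Matrix.cons_val_zero, Matrix.cons_val_one, Matrix.cons_val, map_sub,
      map_add] at h0 h1 h2' h3 h4 h5
    obtain ⟨H, hH⟩ := h5
    obtain ⟨F1, hF1⟩ : (X 0 : MvPolynomial (Fin 3) K) ∣ θ (X 0) - X 0 * H :=
      dvd_sub h0 (dvd_mul_right _ _)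
    have hd1 : (X 0 - X 2 : MvPolynomial (Fin 3) K) ∣ X 0 * F1 := by
      rw [← hF1]
      have e : θ (X 0) - X 0 * H = (θ (X 0) - θ (X 2)) - (X 0 - X 2) * H := by rw [hH]; ring
      rw [e]; exact dvd_sub h1 (dvd_mul_right _ _)
    have hd2 : (X 0 + X 2 : MvPolynomial (Fin 3) K) ∣ X 0 * F1 := by
      rw [← hF1]
      have e : θ (X 0) - X 0 * H = (θ (X 0) + θ (X 2)) - (X 0 + X 2) * H := by rw [hH]; ring
      rw [e]; exact dvd_sub h2' (dvd_mul_right _ _)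
    obtain ⟨F2, hF2⟩ := (p1.dvd_or_dvd hd1).resolve_left
      (not_dvd_eval ![1, 0, 1] (by simp) (by simp))
    rw [hF2] at hd2
    obtain ⟨F3, hF3⟩ := (p2.dvd_or_dvd ((p2.dvd_or_dvd hd2).resolve_left
      (not_dvd_eval ![1, 0, -1] (by simp) (by simp)))).resolve_left
      (not_dvd_eval ![1, 0, -1] (by simp) (by simp <;> norm_num))
    obtain ⟨G1, hG1⟩ : (X 1 : MvPolynomial (Fin 3) K) ∣ θ (X 1) - X 1 * H :=
      dvd_sub h3 (dvd_mul_right _ _)
    have hd4 : (X 1 - X 2 : MvPolynomial (Fin 3) K) ∣ X 1 * G1 := by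
      rw [← hG1]
      have e : θ (X 1) - X 1 * H = (θ (X 1) - θ (X 2)) - (X 1 - X 2) * H := by rw [hH]; ring
      rw [e]; exact dvd_sub h4 (dvd_mul_right _ _)
    obtain ⟨G2, hG2⟩ := (p4.dvd_or_dvd hd4).resolve_left
      (not_dvd_eval ![0, 1, 1] (by simp) (by simp))
    rw [hder]
    have e0 : θ (X 0) = X 0 * H + X 0 * ((X 0 - X 2) * ((X 0 + X 2) * F3)) := by
      rw [← hF3, ← hF2, ← hF1]; ring
    have e1 : θ (X 1) = X 1 * H + X 1 * ((X 1 - X 2) * G2) := by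
      rw [← hG2, ← hG1]; ring
    refine mem_adj.2 ⟨2 * H * eta + 2 * F3 * f4, ?_, 2 * G2, ?_⟩
    · refine mem_adj.2 ⟨2 * H * eta, ?_, 2 * F3, rfl⟩
      exact mem_adj.2 ⟨0, Ideal.zero_mem _, 2 * H, by ring⟩
    · rw [e0, e1, hH]
      simp only [eta, f4, f3]
      ring
  · have mk : ∀ (a : Fin 3 → MvPolynomial (Fin 3) K),
        (∀ i, ![X 0, X 0 - X 2, X 0 + X 2, X 1, X 1 - X 2, X 2] i ∣
          ![a 0, a 0 - a 2, a 0 + a 2, a 1, a 1 - a 2, a 2] i) →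
        X 0 * a 0 + X 1 * a 1 + X 2 * a 2 ∈ stIdeal (A6 : Fin 6 → Fin 3 → K) eta := by
      intro a ha
      have hX : ∀ i, mkDerivation K a (X i) = a i := fun i => mkDerivation_X _ _ _
      refine ⟨(C (2⁻¹ : K) : MvPolynomial (Fin 3) K) • mkDerivation K a, ?_, ?_⟩
      · refine Submodule.smul_mem _ _ fun i => ?_
        rw [lin_A6]
        have := ha i
        fin_cases i <;> simpa [hX] using this
      · rw [hder]
        simp only [Derivation.smul_apply, hX, smul_eq_mul]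
        linear_combination (X 0 * a 0 + X 1 * a 1 + X 2 * a 2) * h2
    refine sup_le (sup_le (sup_le bot_le ?_) ?_) ?_
    · rw [Ideal.span_singleton_le_iff_mem]
      have := mk X (by
        intro i; fin_cases i <;> simp)
      have e : (X 0 * X 0 + X 1 * X 1 + X 2 * X 2 : MvPolynomial (Fin 3) K) = eta := by
        simp only [eta]; ring
      rw [e] at this; exact this
    · rw [Ideal.span_singleton_le_iff_mem]
      have := mk ![X 0 * ((X 0 - X 2) * (X 0 + X 2)), 0, 0] (by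
        intro i
        fin_cases i
        · simp
        · exact ⟨X 0 * (X 0 + X 2), by simp; ring⟩
        · exact ⟨X 0 * (X 0 - X 2), by simp; ring⟩
        · simp
        · simp
        · simp)
      have e : (X 0 * ![X 0 * ((X 0 - X 2) * (X 0 + X 2)), 0, 0] 0 +
          X 1 * ![X 0 * ((X 0 - X 2) * (X 0 + X 2)), 0, 0] 1 +
          X 2 * ![X 0 * ((X 0 - X 2) * (X 0 + X 2)), 0, 0] 2 : MvPolynomial (Fin 3) K) = f4 := by
        simp [f4]
      rw [e] at this; exact this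
    · rw [Ideal.span_singleton_le_iff_mem]
      have := mk ![0, X 1 * (X 1 - X 2), 0] (by
        intro i
        fin_cases i
        · simp
        · simp
        · simp
        · simp
        · exact ⟨X 1, by simp; ring⟩
        · simp)
      have e : (X 0 * ![0, X 1 * (X 1 - X 2), 0] 0 +
          X 1 * ![0, X 1 * (X 1 - X 2), 0] 1 +
          X 2 * ![0, X 1 * (X 1 - X 2), 0] 2 : MvPolynomial (Fin 3) K) = f3 := by
        simp [f3]
      rw [e] at this; exact this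

/-- divisibility by the quartic -/
theorem f4_dvd [CharZero K] {a g : MvPolynomial (Fin 3) K} (h0 : ¬ X 0 ∣ g)
    (h1 : ¬ (X 0 - X 2) ∣ g) (h2 : ¬ (X 0 + X 2) ∣ g) (h : f4 ∣ a * g) : f4 ∣ a := by
  have canc : ∀ {ℓ q a g : MvPolynomial (Fin 3) K}, Prime ℓ → ¬ ℓ ∣ g → ℓ * q ∣ a * g →
      ∃ a', a = ℓ * a' ∧ q ∣ a' * g := by
    intro ℓ q a g hp hg h
    obtain ⟨a', rfl⟩ := (hp.dvd_or_dvd ((dvd_mul_right ℓ q).trans h)).resolve_right hg
    refine ⟨a', rfl, ?_⟩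
    rw [mul_assoc] at h
    exact (mul_dvd_mul_iff_left hp.ne_zero).1 h
  unfold f4 at h ⊢
  obtain ⟨a1, e1, g1⟩ := canc p0 h0 h
  obtain ⟨a2, e2, g2⟩ := canc p0 h0 g1
  obtain ⟨a3, e3, g3⟩ := canc p1 h1 g2
  obtain ⟨a4, e4⟩ := (p2.dvd_or_dvd g3).resolve_right h2
  exact ⟨a4, by rw [e1, e2, e3, e4]; ring⟩

theorem eta_ne : (eta : MvPolynomial (Fin 3) K) ≠ 0 := by
  intro h
  have := congrArg (eval (![1, 0, 0] : Fin 3 → K)) h
  simp [eta] at this

theorem f4_ne [CharZero K] : (f4 : MvPolynomial (Fin 3) K) ≠ 0 :=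
  mul_ne_zero p0.ne_zero (mul_ne_zero p0.ne_zero (mul_ne_zero p1.ne_zero p2.ne_zero))

theorem mem_J1 {p : MvPolynomial (Fin 3) K} :
    p ∈ (⊥ ⊔ Ideal.span {eta} : Ideal (MvPolynomial (Fin 3) K)) ↔ ∃ s, p = s * eta := by
  rw [mem_adj]
  constructor
  · rintro ⟨j, hj, s, rfl⟩
    rw [Ideal.mem_bot] at hj
    exact ⟨s, by rw [hj, zero_add]⟩
  · rintro ⟨s, rfl⟩
    exact ⟨0, Ideal.zero_mem _, s, by ring⟩

theorem nzd2 [CharZero K] (u : MvPolynomial (Fin 3) K)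
    (h : u * f4 ∈ (⊥ ⊔ Ideal.span {eta} : Ideal (MvPolynomial (Fin 3) K))) :
    u ∈ (⊥ ⊔ Ideal.span {eta} : Ideal (MvPolynomial (Fin 3) K)) := by
  rw [mem_J1] at h ⊢
  obtain ⟨s, hs⟩ := h
  obtain ⟨t, rfl⟩ : f4 ∣ s := f4_dvd (g := eta)
    (not_dvd_eval ![0, 0, 1] (by simp) (by simp [eta]))
    (not_dvd_eval ![1, 0, 1] (by simp) (by simp [eta] <;> norm_num))
    (not_dvd_eval ![1, 0, -1] (by simp) (by simp [eta] <;> norm_num)) ⟨u, by rw [← hs]; ring⟩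
  refine ⟨t, mul_left_cancel₀ f4_ne ?_⟩
  linear_combination hs

theorem sub_dvd {l : ℕ} (g : Fin l → MvPolynomial (Fin l) K) (ℓ : MvPolynomial (Fin l) K)
    (h : ∀ i, ℓ ∣ X i - g i) (F : MvPolynomial (Fin l) K) : ℓ ∣ F - aeval g F := by
  rw [← Ideal.mem_span_singleton, ← Ideal.Quotient.eq]
  have h1 : (Ideal.Quotient.mkₐ K (Ideal.span {ℓ})) =
      (Ideal.Quotient.mkₐ K (Ideal.span {ℓ})).comp (aeval g) := by
    apply MvPolynomial.algHom_ext
    intro j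
    rw [AlgHom.comp_apply, aeval_X, Ideal.Quotient.mkₐ_eq_mk, Ideal.Quotient.eq,
      Ideal.mem_span_singleton]
    exact h j
  exact DFunLike.congr_fun h1 F

/-- the key step for a linear factor of the cubic -/
theorem nzd_lin [CharZero K] (g : Fin 3 → MvPolynomial (Fin 3) K) (ℓ k : MvPolynomial (Fin 3) K)
    (hp : Prime ℓ) (h : ∀ i, ℓ ∣ X i - g i) (h0 : aeval g ℓ = 0)
    (h4 : aeval g (f4 : MvPolynomial (Fin 3) K) = f4)
    (hk : (eta : MvPolynomial (Fin 3) K) - aeval g (eta : MvPolynomial (Fin 3) K) = ℓ * k)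
    (hn0 : ¬ X 0 ∣ aeval g (eta : MvPolynomial (Fin 3) K))
    (hn1 : ¬ (X 0 - X 2) ∣ aeval g (eta : MvPolynomial (Fin 3) K))
    (hn2 : ¬ (X 0 + X 2) ∣ aeval g (eta : MvPolynomial (Fin 3) K))
    (u : MvPolynomial (Fin 3) K)
    (hu : u * ℓ ∈ (⊥ ⊔ Ideal.span {eta} ⊔ Ideal.span {f4} : Ideal (MvPolynomial (Fin 3) K))) :
    u ∈ (⊥ ⊔ Ideal.span {eta} ⊔ Ideal.span {f4} : Ideal (MvPolynomial (Fin 3) K)) := by
  obtain ⟨j, hj, b, hb⟩ := mem_adj.1 hu
  obtain ⟨a, rfl⟩ := mem_J1.1 hj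
  have h1 := congrArg (aeval g) hb
  rw [map_mul, h0, mul_zero, map_add, map_mul, map_mul, h4] at h1
  obtain ⟨c, hc⟩ : f4 ∣ aeval g a := f4_dvd hn0 hn1 hn2
    ⟨-aeval g b, by linear_combination -h1⟩
  have hb' : aeval g b = -c * aeval g (eta : MvPolynomial (Fin 3) K) := by
    apply mul_left_cancel₀ f4_ne
    rw [hc] at h1
    linear_combination -h1
  obtain ⟨a', ha'⟩ := sub_dvd g ℓ h a
  obtain ⟨b', hb''⟩ := sub_dvd g ℓ h b
  have hu2 : u = c * k * f4 + a' * eta + b' * f4 := by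
    apply mul_right_cancel₀ hp.ne_zero
    rw [hb]
    linear_combination eta * ha' + f4 * hb'' + eta * hc + f4 * hb' + c * f4 * hk
  rw [hu2]
  refine mem_adj.2 ⟨a' * eta, mem_J1.2 ⟨a', rfl⟩, c * k + b', by ring⟩

theorem nzd3 [CharZero K] (u : MvPolynomial (Fin 3) K)
    (h : u * f3 ∈ (⊥ ⊔ Ideal.span {eta} ⊔ Ideal.span {f4} : Ideal (MvPolynomial (Fin 3) K))) :
    u ∈ (⊥ ⊔ Ideal.span {eta} ⊔ Ideal.span {f4} : Ideal (MvPolynomial (Fin 3) K)) := by
  have s1 : ∀ u : MvPolynomial (Fin 3) K,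
      u * X 1 ∈ (⊥ ⊔ Ideal.span {eta} ⊔ Ideal.span {f4} : Ideal (MvPolynomial (Fin 3) K)) →
      u ∈ (⊥ ⊔ Ideal.span {eta} ⊔ Ideal.span {f4} : Ideal (MvPolynomial (Fin 3) K)) := by
    intro u hu
    refine nzd_lin ![X 0, 0, X 2] (X 1) (X 1) p3 ?_ ?_ ?_ ?_ ?_ ?_ ?_ u hu
    · intro i; fin_cases i <;> simp
    · simp
    · simp [f4]
    · simp [eta]; ring
    · exact not_dvd_eval ![0, 0, 1] (by simp) (by simp [eta])
    · exact not_dvd_eval ![1, 0, 1] (by simp) (by simp [eta] <;> norm_num)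
    · exact not_dvd_eval ![1, 0, -1] (by simp) (by simp [eta] <;> norm_num)
  have s2 : ∀ u : MvPolynomial (Fin 3) K,
      u * (X 1 - X 2) ∈ (⊥ ⊔ Ideal.span {eta} ⊔ Ideal.span {f4} :
        Ideal (MvPolynomial (Fin 3) K)) →
      u ∈ (⊥ ⊔ Ideal.span {eta} ⊔ Ideal.span {f4} : Ideal (MvPolynomial (Fin 3) K)) := by
    intro u hu
    refine nzd_lin ![X 0, X 2, X 2] (X 1 - X 2) (X 1 + X 2) p4 ?_ ?_ ?_ ?_ ?_ ?_ ?_ u hu
    · intro i; fin_cases i <;> simp
    · simp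
    · simp [f4]
    · simp [eta]; ring
    · exact not_dvd_eval ![0, 0, 1] (by simp) (by simp [eta] <;> norm_num)
    · exact not_dvd_eval ![1, 0, 1] (by simp) (by simp [eta] <;> norm_num)
    · exact not_dvd_eval ![1, 0, -1] (by simp) (by simp [eta] <;> norm_num)
  apply s1
  apply s1
  apply s2
  have e : u * X 1 * X 1 * (X 1 - X 2) = u * (f3 : MvPolynomial (Fin 3) K) := by
    simp only [f3]; ring
  rw [e]; exact h

end Pool.Agent.V1148.ST
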