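import Pool.Agent.V1148.ST.F

set_option autoImplicit false
set_option linter.unusedVariables false

/-! # The two Hilbert series -/

namespace Pool.Agent.V1148.ST

open MvPolynomial

variable {K : Type*} [Field K]

instance fin_hom (m e : ℕ) : Module.Finite K (homogeneousSubmodule (Fin (m + 1)) K e) :=
  (finrank_hom m e).1

theorem eta_hom : (eta : MvPolynomial (Fin 3) K).IsHomogeneous 2 := by
  unfold eta
  exact ((isHomogeneous_X_pow _ _).add (isHomogeneous_X_pow _ _)).add (isHomogeneous_X_pow _ _)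

theorem sub_hom {l : ℕ} {i j : Fin l} : (X i - X j : MvPolynomial (Fin l) K).IsHomogeneous 1 :=
  (isHomogeneous_X _ _).sub (isHomogeneous_X _ _)

theorem f4_hom : (f4 : MvPolynomial (Fin 3) K).IsHomogeneous 4 := by
  unfold f4
  exact (isHomogeneous_X _ _).mul ((isHomogeneous_X _ _).mul (sub_hom.mul
    ((isHomogeneous_X _ _).add (isHomogeneous_X _ _))))

theorem f3_hom : (f3 : MvPolynomial (Fin 3) K).IsHomogeneous 3 := by
  unfold f3
  exact (isHomogeneous_X _ _).mul ((isHomogeneous_X _ _).mul sub_hom)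

theorem h1 (d : ℕ) : hilb (⊥ ⊔ Ideal.span {eta} : Ideal (MvPolynomial (Fin 3) K)) d = 2 * d + 1 := by
  rcases Nat.lt_or_ge d 2 with hd | hd
  · rw [hstep' graded_bot eta_hom hd, hilb_bot]
    interval_cases d <;> rfl
  · have h := hstep (K := K) graded_bot eta_hom (fun u hu => by
      rw [Ideal.mem_bot] at hu ⊢
      exact (mul_eq_zero.1 hu).resolve_right eta_ne) hd
    rw [hilb_bot, hilb_bot] at h
    obtain ⟨k, rfl⟩ : ∃ k, d = k + 2 := ⟨d - 2, by omega⟩
    have e1 : (k + 2 + 2).choose 2 = (k + 3) + ((k + 2) + (k + 2).choose 2) := by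
      rw [Nat.choose_succ_succ' (k + 3) 1, Nat.choose_one_right, Nat.choose_succ_succ' (k + 2) 1,
        Nat.choose_one_right]
    have e2 : k + 2 - 2 = k := by omega
    rw [e1, e2] at h
    omega

theorem h2 [CharZero K] (d : ℕ) : hilb (⊥ ⊔ Ideal.span {eta} ⊔ Ideal.span {f4} :
    Ideal (MvPolynomial (Fin 3) K)) d = if d < 4 then 2 * d + 1 else 8 := by
  have hg := graded_adj (graded_bot (K := K) (n := 3)) eta_hom
  split_ifs with hd
  · rw [hstep' hg f4_hom hd, h1]
  · have h := hstep (K := K) hg f4_hom nzd2 (Nat.not_lt.1 hd)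
    rw [h1, h1] at h
    omega

theorem h3 [CharZero K] (d : ℕ) : hilb (⊥ ⊔ Ideal.span {eta} ⊔ Ideal.span {f4} ⊔
    Ideal.span {f3} : Ideal (MvPolynomial (Fin 3) K)) d =
      if d = 0 then 1 else if d = 1 then 3 else if d = 2 then 5 else if d = 3 then 6 else
        if d = 4 then 5 else if d = 5 then 3 else if d = 6 then 1 else 0 := by
  have hg := graded_adj (graded_adj (graded_bot (K := K) (n := 3)) eta_hom) f4_hom
  rcases Nat.lt_or_ge d 3 with hd | hd
  · rw [hstep' hg f3_hom hd, h2]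
    interval_cases d <;> rfl
  · have h := hstep (K := K) hg f3_hom nzd3 hd
    rw [h2, h2] at h
    split_ifs at h ⊢ <;> omega

open Polynomial in
theorem isHilb_A6 [CharZero K] : IsHilb (A6 : Fin 6 → Fin 3 → K) eta
    ((1 + Polynomial.X) * (1 + Polynomial.X + Polynomial.X ^ 2) *
      (1 + Polynomial.X + Polynomial.X ^ 2 + Polynomial.X ^ 3)) := by
  intro d
  rw [stIdeal_A6, h3]
  have e : ((1 + Polynomial.X) * (1 + Polynomial.X + Polynomial.X ^ 2) *
      (1 + Polynomial.X + Polynomial.X ^ 2 + Polynomial.X ^ 3) : Polynomial ℚ) =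
      Polynomial.C 1 * Polynomial.X ^ 0 + Polynomial.C 3 * Polynomial.X ^ 1 +
      Polynomial.C 5 * Polynomial.X ^ 2 + Polynomial.C 6 * Polynomial.X ^ 3 +
      Polynomial.C 5 * Polynomial.X ^ 4 + Polynomial.C 3 * Polynomial.X ^ 5 +
      Polynomial.C 1 * Polynomial.X ^ 6 := by
    simp only [map_one, map_ofNat]
    ring
  rw [e]
  simp only [Polynomial.coeff_add, Polynomial.coeff_C_mul_X_pow]
  rcases Nat.lt_or_ge d 7 with hd | hd
  · interval_cases d <;> simp
  · have : ∀ k, k < 7 → d ≠ k := fun k hk => by omega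
    simp [this]

/-! ### the restriction -/

theorem g1 (d : ℕ) : hilb (⊥ ⊔ Ideal.span {X 0 ^ 2} : Ideal (MvPolynomial (Fin 2) K)) d =
    if d = 0 then 1 else 2 := by
  rcases Nat.lt_or_ge d 2 with hd | hd
  · rw [hstep' graded_bot (isHomogeneous_X_pow _ _) hd, hilb_bot]
    interval_cases d <;> rfl
  · have h := hstep (K := K) graded_bot (isHomogeneous_X_pow (0 : Fin 2) 2) (fun u hu => by
      rw [Ideal.mem_bot] at hu ⊢
      exact (mul_eq_zero.1 hu).resolve_right (pow_ne_zero _ (X_ne_zero _))) hd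
    rw [hilb_bot, hilb_bot, Nat.choose_one_right, Nat.choose_one_right] at h
    rw [if_neg (by omega)]
    omega

theorem primeX (i : Fin 2) : Prime (X i : MvPolynomial (Fin 2) K) := by
  have := lin_prime (B2_ne (K := K) i)
  have e : lin (B2 i : Fin 2 → K) = X i := by
    fin_cases i <;> simp [lin, B2]
  rwa [e] at this

theorem nzdg (u : MvPolynomial (Fin 2) K)
    (h : u * X 1 ^ 2 ∈ (⊥ ⊔ Ideal.span {X 0 ^ 2} : Ideal (MvPolynomial (Fin 2) K))) :
    u ∈ (⊥ ⊔ Ideal.span {X 0 ^ 2} : Ideal (MvPolynomial (Fin 2) K)) := by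
  obtain ⟨j, hj, s, hs⟩ := mem_adj.1 h
  rw [Ideal.mem_bot] at hj
  rw [hj, zero_add] at hs
  have hn : ¬ (X 0 : MvPolynomial (Fin 2) K) ∣ X 1 ^ 2 :=
    not_dvd_eval ![0, 1] (by simp) (by simp)
  obtain ⟨a, rfl⟩ := ((primeX 0).dvd_or_dvd (show X 0 ∣ u * X 1 ^ 2 from
    ⟨s * X 0, by rw [hs]; ring⟩)).resolve_right hn
  have h2 : a * X 1 ^ 2 = s * X 0 := by
    apply mul_left_cancel₀ (primeX (K := K) 0).ne_zero
    linear_combination hs
  obtain ⟨b, rfl⟩ := ((primeX 0).dvd_or_dvd (show X 0 ∣ a * X 1 ^ 2 from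
    ⟨s, by rw [h2]; ring⟩)).resolve_right hn
  exact mem_adj.2 ⟨0, Ideal.zero_mem _, b, by ring⟩

theorem g2 (d : ℕ) : hilb (⊥ ⊔ Ideal.span {X 0 ^ 2} ⊔ Ideal.span {X 1 ^ 2} :
    Ideal (MvPolynomial (Fin 2) K)) d =
      if d = 0 then 1 else if d = 1 then 2 else if d = 2 then 1 else 0 := by
  have hg := graded_adj (graded_bot (K := K) (n := 2)) (isHomogeneous_X_pow (0 : Fin 2) 2)
  rcases Nat.lt_or_ge d 2 with hd | hd
  · rw [hstep' hg (isHomogeneous_X_pow _ _) hd, g1]
    interval_cases d <;> rfl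
  · have h := hstep (K := K) hg (isHomogeneous_X_pow (1 : Fin 2) 2) nzdg hd
    rw [g1, g1] at h
    split_ifs at h ⊢ <;> omega

theorem resPoly_eta : resPoly (eta : MvPolynomial (Fin 3) K) phi = X 0 ^ 2 + X 1 ^ 2 := by
  simp [resPoly, eta, lin, phi]

theorem stIdeal_B2 [CharZero K] : stIdeal (B2 : Fin 2 → Fin 2 → K) (X 0 ^ 2 + X 1 ^ 2) =
    ⊥ ⊔ Ideal.span {X 0 ^ 2} ⊔ Ideal.span {X 1 ^ 2} := by
  have hlin : ∀ i, lin (B2 i : Fin 2 → K) = X i := by
    intro i
    fin_cases i <;> simp [lin, B2]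
  have h2 : (C (2⁻¹ : K) : MvPolynomial (Fin 2) K) * 2 = 1 := by
    have : (2 : MvPolynomial (Fin 2) K) = C 2 := by rw [map_ofNat]
    rw [this, ← C_mul, inv_mul_cancel₀ two_ne_zero, C_1]
  have hder : ∀ θ : Derivation K (MvPolynomial (Fin 2) K) (MvPolynomial (Fin 2) K),
      θ (X 0 ^ 2 + X 1 ^ 2) = 2 * (X 0 * θ (X 0) + X 1 * θ (X 1)) := by
    intro θ
    simp only [map_add, Derivation.leibniz_pow, smul_eq_mul, nsmul_eq_mul]
    push_cast
    ring
  apply le_antisymm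
  · rintro _ ⟨θ, hθ, rfl⟩
    have h0 := hθ 0
    have h1 := hθ 1
    rw [hlin] at h0 h1
    obtain ⟨F, hF⟩ := h0
    obtain ⟨G, hG⟩ := h1
    rw [hder, hF, hG]
    exact mem_adj.2 ⟨2 * F * X 0 ^ 2, mem_adj.2 ⟨0, Ideal.zero_mem _, 2 * F, by ring⟩, 2 * G,
      by ring⟩
  · have mk : ∀ (a : Fin 2 → MvPolynomial (Fin 2) K), (∀ i, X i ∣ a i) →
        X 0 * a 0 + X 1 * a 1 ∈ stIdeal (B2 : Fin 2 → Fin 2 → K) (X 0 ^ 2 + X 1 ^ 2) := by
      intro a ha
      have hX : ∀ i, mkDerivation K a (X i) = a i := fun i => mkDerivation_X _ _ _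
      refine ⟨(C (2⁻¹ : K) : MvPolynomial (Fin 2) K) • mkDerivation K a, ?_, ?_⟩
      · refine Submodule.smul_mem _ _ fun i => ?_
        rw [hlin, hX]
        exact ha i
      · rw [hder]
        simp only [Derivation.smul_apply, hX, smul_eq_mul]
        linear_combination (X 0 * a 0 + X 1 * a 1) * h2
    refine sup_le (sup_le bot_le ?_) ?_
    · rw [Ideal.span_singleton_le_iff_mem]
      have := mk ![X 0, 0] (by intro i; fin_cases i <;> simp)
      have e : (X 0 * ![X 0, 0] 0 + X 1 * ![X 0, 0] 1 : MvPolynomial (Fin 2) K) = X 0 ^ 2 := by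
        simp [pow_two]
      rw [e] at this; exact this
    · rw [Ideal.span_singleton_le_iff_mem]
      have := mk ![0, X 1] (by intro i; fin_cases i <;> simp)
      have e : (X 0 * ![0, X 1] 0 + X 1 * ![0, X 1] 1 : MvPolynomial (Fin 2) K) = X 1 ^ 2 := by
        simp [pow_two]
      rw [e] at this; exact this

theorem isHilb_B2 [CharZero K] : IsHilb (B2 : Fin 2 → Fin 2 → K) (resPoly eta phi)
    ((1 + Polynomial.X) ^ 2) := by
  intro d
  rw [resPoly_eta, stIdeal_B2, g2]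
  have e : ((1 + Polynomial.X) ^ 2 : Polynomial ℚ) =
      Polynomial.C 1 * Polynomial.X ^ 0 + Polynomial.C 2 * Polynomial.X ^ 1 +
      Polynomial.C 1 * Polynomial.X ^ 2 := by
    simp only [map_one, map_ofNat]
    ring
  rw [e]
  simp only [Polynomial.coeff_add, Polynomial.coeff_C_mul_X_pow]
  rcases Nat.lt_or_ge d 3 with hd | hd
  · interval_cases d <;> simp
  · have : ∀ k, k < 3 → d ≠ k := fun k hk => by omega
    simp [this]

end Pool.Agent.V1148.ST
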